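import Pool.Agent.Q54.EM.StmD

/-! Bounds for the third central moment of a finite law on `[0, l]` (project EM of helper54). -/

set_option autoImplicit false

namespace Pool.Agent.Q184.EM

open Finset Pool.Agent.Q54.EM

theorem k3b : S_K3B := by
  intro ι _ p x l hL hx
  set m := mu p x with hm
  have hva : va p x = ∑ i, p i * (x i - m) ^ 2 := by
    have : ∀ i, p i * (x i - m) ^ 2 = p i * x i ^ 2 - 2 * m * (p i * x i) + m ^ 2 * p i := by
      intro i; ring
    rw [Finset.sum_congr rfl (fun i _ => this i), Finset.sum_add_distrib, Finset.sum_sub_distrib,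
      ← Finset.mul_sum, ← Finset.mul_sum, hL.sum]
    have h2 : ∑ i, p i * x i = m := by rw [hm]; rfl
    unfold va
    rw [h2]; ring
  have h1 : ∑ i, p i * (x i - m) = 0 := by
    have : ∀ i, p i * (x i - m) = p i * x i - m * p i := by intro i; ring
    rw [Finset.sum_congr rfl (fun i _ => this i), Finset.sum_sub_distrib, ← Finset.mul_sum, hL.sum]
    have h2 : ∑ i, p i * x i = m := by rw [hm]; rfl
    rw [h2]; ring
  have hk3 : k3 p x = ∑ i, p i * (x i - m) ^ 3 := rfl
  have hv0 : 0 ≤ va p x := by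
    rw [hva]
    exact Finset.sum_nonneg (fun i _ => mul_nonneg (hL.pos i).le (sq_nonneg _))
  refine ⟨?_, ?_, hv0⟩
  · -- k3 + m v = ∑ p x (x - m)^2
    have : k3 p x + m * va p x = ∑ i, p i * (x i * (x i - m) ^ 2) := by
      rw [hk3, hva, Finset.mul_sum, ← Finset.sum_add_distrib]
      refine Finset.sum_congr rfl (fun i _ => ?_)
      ring
    have h0 : 0 ≤ ∑ i, p i * (x i * (x i - m) ^ 2) :=
      Finset.sum_nonneg (fun i _ => mul_nonneg (hL.pos i).le (mul_nonneg (hL.nn i) (sq_nonneg _)))
    linarith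
  · -- Cauchy–Schwarz with Y = l - x
    set a := l - m with ha
    -- E Y = a, E Y^2 = a^2 + v, E Y^3 = a^3 + 3 a v - k3
    have e1 : ∑ i, p i * (l - x i) = a := by
      have : ∀ i, p i * (l - x i) = a * p i - p i * (x i - m) := by intro i; rw [ha]; ring
      rw [Finset.sum_congr rfl (fun i _ => this i), Finset.sum_sub_distrib, ← Finset.mul_sum, hL.sum,
        h1]; ring
    have e2 : ∑ i, p i * (l - x i) ^ 2 = a ^ 2 + va p x := by
      have : ∀ i, p i * (l - x i) ^ 2 = a ^ 2 * p i - 2 * a * (p i * (x i - m))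
          + p i * (x i - m) ^ 2 := by intro i; rw [ha]; ring
      rw [Finset.sum_congr rfl (fun i _ => this i), Finset.sum_add_distrib, Finset.sum_sub_distrib,
        ← Finset.mul_sum, ← Finset.mul_sum, hL.sum, h1, ← hva]; ring
    have e3 : ∑ i, p i * (l - x i) ^ 3 = a ^ 3 + 3 * a * va p x - k3 p x := by
      have : ∀ i, p i * (l - x i) ^ 3 = a ^ 3 * p i - 3 * a ^ 2 * (p i * (x i - m))
          + 3 * a * (p i * (x i - m) ^ 2) - p i * (x i - m) ^ 3 := by intro i; rw [ha]; ring
      rw [Finset.sum_congr rfl (fun i _ => this i), Finset.sum_sub_distrib, Finset.sum_add_distrib,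
        Finset.sum_sub_distrib,
        ← Finset.mul_sum, ← Finset.mul_sum, ← Finset.mul_sum, hL.sum, h1, ← hva, ← hk3]; ring
    have cs : (∑ i, p i * (l - x i) ^ 2) ^ 2 ≤
        (∑ i, p i * (l - x i)) * (∑ i, p i * (l - x i) ^ 3) := by
      refine Finset.sum_sq_le_sum_mul_sum_of_sq_le_mul Finset.univ
        (fun i _ => mul_nonneg (hL.pos i).le (by linarith [hx i]))
        (fun i _ => mul_nonneg (hL.pos i).le (pow_nonneg (by linarith [hx i]) 3))
        (fun i _ => le_of_eq (by ring))
    rw [e1, e2, e3] at cs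
    nlinarith [cs]

end Pool.Agent.Q184.EM
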